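import Pool.Agent.helper65.GD.SpecF

/-!
Row XPS of the project on Goodman's inequality for close-to-convex functions (MP_ea335c_an):
the basis `psg g Φ` of the space of the products `z g(z) h(z)`.
-/

set_option autoImplicit false

namespace Pool.Agent.GD

open Finset Metric Filter Topology

lemma XPS_cmb (g : ℕ → ℂ) (p : ℕ) (Φ : ℕ → ℕ → ℂ) (c : ℕ → ℂ) (n : ℕ) :
    cmb (p + 1) (psg g Φ) c n = gs g (fun r => ∑ m ∈ range (p + 1), c (m + 1) * one0 Φ m r) n := by
  have hI : ∑ m ∈ Icc 1 (p + 1), c m * psg g Φ m n = ∑ m ∈ range (p + 1), c (m + 1) * psg g Φ (m + 1) n := by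
    rw [Finset.range_eq_Ico, Finset.sum_Ico_add' (fun m => c m * psg g Φ m n) 0 (p + 1) 1]
    refine Finset.sum_congr ?_ fun _ _ => rfl
    ext a
    simp only [mem_Icc, mem_Ico]
    omega
  unfold cmb
  rw [hI]
  unfold gs
  simp only [Finset.mul_sum]
  rw [Finset.sum_comm]
  refine Finset.sum_congr rfl fun m _ => ?_
  have : psg g Φ (m + 1) n = ∑ r ∈ range n, g (n - 1 - r) * one0 Φ m r := by
    unfold psg gs
    rw [if_neg (by omega), show m + 1 - 1 = m by omega]
  rw [this, Finset.mul_sum]
  refine Finset.sum_congr rfl fun r _ => by ring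

theorem XPS : XPS_stmt := by
  intro p g Φ hG hg
  refine ⟨?_, ?_, fun c n => XPS_cmb g p Φ c n, ?_⟩
  · intro m n h
    unfold psg
    rw [if_neg (by omega)]
    unfold gs
    refine Finset.sum_eq_zero fun r hr => ?_
    have hr' := mem_range.1 hr
    have : one0 Φ (m - 1) r = 0 := by
      unfold one0
      rw [if_neg (by omega)]
      exact hG.low (m - 1) r (by omega)
    rw [this, mul_zero]
  · intro m
    rcases Nat.eq_zero_or_pos m with h | h
    · subst h
      simp [psg]
    · obtain ⟨q, rfl⟩ : ∃ q, m = q + 1 := ⟨m - 1, by omega⟩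
      unfold psg
      rw [if_neg (by omega), show q + 1 - 1 = q by omega]
      unfold gs
      rw [Finset.sum_range_succ, Finset.sum_eq_zero, zero_add, show q + 1 - 1 - q = 0 by omega, hg, one_mul]
      · unfold one0
        by_cases hq : q = 0
        · subst hq
          simp
        · rw [if_neg hq]
          exact hG.diag q
      · intro r hr
        have hr' := mem_range.1 hr
        have : one0 Φ q r = 0 := by
          unfold one0
          rw [if_neg (by omega)]
          exact hG.low q r hr'
        rw [this, mul_zero]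
  · intro c m hm
    rw [MUF_low p Φ c m (by omega), Finset.sum_congr rfl (fun i hi => by rw [MUF_low p Φ c i (mem_Icc.1 hi).1])]
    exact hG.ineq _ m hm

end Pool.Agent.GD
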